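import Mathlib
import Pool.Agent.H130R4.DADefs
import Pool.Agent.Q199.Oct.Defs
import Pool.Agent.Q199.Oct.EllOne
import Pool.Agent.Q199.Oct.Main

set_option autoImplicit false

namespace Pool.Agent.Results.MP_247e0b_an.ProjNotOctahedral

open Pool.Agent.H130R4.DA Pool.Agent.Q199.Oct

/-- There are real Banach spaces `X` and `Y` with `X` octahedral such that the completed
projective tensor product of `X` and `Y` is not octahedral. -/
theorem result :
    ∃ (X Y : Type) (_ : NormedAddCommGroup X) (_ : NormedSpace ℝ X) (_ : CompleteSpace X)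
      (_ : NormedAddCommGroup Y) (_ : NormedSpace ℝ Y) (_ : CompleteSpace Y),
      IsOctahedral X ∧ ¬ IsOctahedral (ProjectiveTensorProduct ℝ X Y) :=
  ⟨L1 × L1, Y4, inferInstance, inferInstance, inferInstance, inferInstance, inferInstance,
    inferInstance, prod_octahedral l1_octahedral, not_octahedral _ (l1_single_norm 0)⟩

end Pool.Agent.Results.MP_247e0b_an.ProjNotOctahedral
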